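import Pool.Agent.H928R3.Defs
import Pool.Agent.H928R3.Gap
import Pool.Agent.H928R3.Total
import Mathlib.Analysis.SpecialFunctions.Pow.Real
import Mathlib.Analysis.Complex.ExponentialBounds

/-!
# A counterexample to the inequality of Q2 of MP_41caf5_nt

For `a = -3` the consecutive primes `51459203` and `51460433` (the `n`-th and the `(n+1)`-st
primes for which `-3` is the largest negative primitive root, with `n ≥ 744961`) violate
`p_{n+1}(a) < p_n(a) ^ (1 + 1 / n)`.
-/

namespace Pool.Agent.Results.MP_41caf5_nt.InequalityFailsAtMinusThree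

open Pool.Agent.H928R3

theorem q_mem : 51459203 ∈ primesOf (-3) :=
  (entry1_spec (c := 0) (N := 0) (k := fun _ => true) (by norm_num) (by decide +kernel)).1

theorem r_mem : 51460433 ∈ primesOf (-3) :=
  (entry1_spec (c := 0) (N := 0) (k := fun _ => true) (by norm_num) (by decide +kernel)).1

theorem card_le : 744961 ≤ (primesOf (-3) ∩ Set.Iic 51459203).ncard := by
  have h1 : 744960 ≤ (primesOf (-3) ∩ Set.Ioc 8219 50779139).ncard := total.card
  have hfin : (primesOf (-3) ∩ Set.Ioc 8219 50779139).Finite :=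
    (Set.finite_Ioc _ _).subset Set.inter_subset_right
  have hfin' : (primesOf (-3) ∩ Set.Iic 51459203).Finite :=
    (Set.finite_Iic _).subset Set.inter_subset_right
  have hnot : 51459203 ∉ primesOf (-3) ∩ Set.Ioc 8219 50779139 := by
    intro h
    have := h.2.2
    omega
  have hsub : insert 51459203 (primesOf (-3) ∩ Set.Ioc 8219 50779139) ⊆
      primesOf (-3) ∩ Set.Iic 51459203 := by
    intro x hx
    rcases hx with rfl | hx
    · exact ⟨q_mem, Set.mem_Iic.2 le_rfl⟩
    · refine ⟨hx.1, Set.mem_Iic.2 ?_⟩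
      have := hx.2.2
      omega
  have h2 := Set.ncard_le_ncard hsub hfin'
  rw [Set.ncard_insert_of_notMem hnot hfin] at h2
  omega

theorem card_succ : (primesOf (-3) ∩ Set.Iic 51460433).ncard =
    (primesOf (-3) ∩ Set.Iic 51459203).ncard + 1 := by
  have hfin : (primesOf (-3) ∩ Set.Iic 51459203).Finite :=
    (Set.finite_Iic _).subset Set.inter_subset_right
  have hnot : 51460433 ∉ primesOf (-3) ∩ Set.Iic 51459203 := by
    intro h
    have := Set.mem_Iic.1 h.2
    omega
  have heq : primesOf (-3) ∩ Set.Iic 51460433 =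
      insert 51460433 (primesOf (-3) ∩ Set.Iic 51459203) := by
    ext x
    constructor
    · rintro ⟨h1, h2⟩
      have h2 := Set.mem_Iic.1 h2
      by_cases h3 : x = 51460433
      · exact Or.inl h3
      · right
        refine ⟨h1, Set.mem_Iic.2 ?_⟩
        by_contra h4
        exact gap (by omega) (by omega) h1
    · rintro (rfl | ⟨h1, h2⟩)
      · exact ⟨r_mem, Set.mem_Iic.2 le_rfl⟩
      · refine ⟨h1, Set.mem_Iic.2 ?_⟩
        have := Set.mem_Iic.1 h2
        omega
  rw [heq, Set.ncard_insert_of_notMem hnot hfin]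

theorem log_le : Real.log 51459203 ≤ 178 / 10 := by
  have h1 : (51459203 : ℝ) ^ 5 ≤ Real.exp 89 := by
    have h2 : (2.7182818283 : ℝ) < Real.exp 1 := Real.exp_one_gt_d9
    have h3 : (2.7182818283 : ℝ) ^ 89 ≤ Real.exp 1 ^ 89 :=
      pow_le_pow_left₀ (by norm_num) h2.le 89
    have h4 : Real.exp 1 ^ 89 = Real.exp 89 := by
      rw [← Real.exp_nat_mul]
      norm_num
    rw [← h4]
    refine le_trans ?_ h3
    norm_num
  have h5 : Real.log ((51459203 : ℝ) ^ 5) ≤ 89 := by
    rw [← Real.log_exp 89]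
    exact Real.log_le_log (by positivity) h1
  rw [Real.log_pow] at h5
  push_cast at h5
  linarith

theorem ineq {n : ℕ} (hn : 744961 ≤ n) :
    (51459203 : ℝ) ^ (1 + 1 / (n : ℝ)) < 51460433 := by
  have hn' : (744961 : ℝ) ≤ n := by exact_mod_cast hn
  have hn0 : (0 : ℝ) < n := by linarith
  have h1 : 1 - (51460433 / 51459203 : ℝ)⁻¹ ≤ Real.log (51460433 / 51459203) :=
    Real.one_sub_inv_le_log_of_pos (by norm_num)
  rw [Real.log_div (by norm_num) (by norm_num)] at h1
  have h2 : (1230 / 51460433 : ℝ) ≤ Real.log 51460433 - Real.log 51459203 := by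
    refine le_trans (le_of_eq ?_) h1
    norm_num
  have h3 := log_le
  have h4 : Real.log 51459203 / n ≤ (178 / 10) / 744961 :=
    div_le_div₀ (by norm_num) h3 (by norm_num) hn'
  have h5 : ((178 / 10) / 744961 : ℝ) < 1230 / 51460433 := by norm_num
  have h6 : Real.log 51459203 * (1 + 1 / (n : ℝ)) < Real.log 51460433 := by
    have h7 : Real.log 51459203 * (1 + 1 / (n : ℝ)) =
        Real.log 51459203 + Real.log 51459203 / n := by ring
    rw [h7]
    linarith
  rw [Real.rpow_def_of_pos (by norm_num)]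
  calc Real.exp (Real.log 51459203 * (1 + 1 / (n : ℝ))) < Real.exp (Real.log 51460433) :=
        Real.exp_lt_exp.2 h6
    _ = 51460433 := Real.exp_log (by norm_num)

theorem not_perfectPower : ¬ IsPerfectPower (-3) := by
  rintro ⟨x, m, hm, hx⟩
  have h1 : x.natAbs ^ m = 3 := by
    have := congrArg Int.natAbs hx
    rw [Int.natAbs_pow] at this
    simpa using this.symm
  have h2 : (x.natAbs ^ m).Prime := by rw [h1]; exact Nat.prime_three
  exact Nat.Prime.not_prime_pow (by omega) h2

/-- **Q2 is false.** There are an integer `a < 0` that is not a perfect power, and an `n ≥ 1`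
with `(a, n) ≠ (-2, 13)`, such that the `n`-th and the `(n+1)`-st primes `p`, `p'` for which `a` is
the largest negative primitive root satisfy `p' > p ^ (1 + 1 / n)`; explicitly `a = -3`,
`p = 51459203`, `p' = 51460433`. -/
theorem result : ∃ a : ℤ, ∃ n p p' : ℕ, a < 0 ∧ ¬ IsPerfectPower a ∧ 1 ≤ n ∧ (a, n) ≠ (-2, 13) ∧
    IsNth (primesOf a) n p ∧ IsNth (primesOf a) (n + 1) p' ∧
    (p : ℝ) ^ (1 + 1 / (n : ℝ)) < (p' : ℝ) ∧
    a = -3 ∧ 744961 ≤ n ∧ p = 51459203 ∧ p' = 51460433 := by
  have hn := card_le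
  refine ⟨-3, (primesOf (-3) ∩ Set.Iic 51459203).ncard, 51459203, 51460433, by norm_num,
    not_perfectPower, by omega, by simp, ⟨q_mem, rfl⟩, ⟨r_mem, card_succ⟩, ?_, rfl, hn, rfl, rfl⟩
  have := ineq hn
  push_cast
  exact this

end Pool.Agent.Results.MP_41caf5_nt.InequalityFailsAtMinusThree
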